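import Mathlib
import Pool.Agent.R102.Rooted

set_option autoImplicit false

/-!
# Average-rarity of closure systems with one rooted set per root

Every closure system that contains the empty set and is generated by rooted sets with pairwise
different roots is average-rare.

Proof. Let `C` be the system. The sum of `2 |F| - |V|` over `F ∈ C` is the number of the pairs
`(F, v)` with `v ∈ F ∈ C`, `F \ {v} ∉ C`, minus the number of the pairs `(G, x)` with `x ∉ G ∈ C`,
`G ∪ {x} ∉ C`. There is an injection from the former pairs into the latter ones: for every root `r`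
choose an element `f r` of the stem with root `r`, and for `(F, v)` let `k` be the least number such
that `F_k = F \ {v, f v, ..., f^k v}` is in `C`; map `(F, v)` to `(F_k, f^k v)`. Here `k ≥ 1`, and
`F_k ∪ {f^k v} = F_(k-1)` is not in `C`: the only violated rooted set is the one with the root
`f^(k-1) v`, because for the roots `f^i v`, `i < k - 1`, the element `f^(i+1) v` of the stem has been
removed. So `f^(k-1) v` can be recovered from `(F_k, f^k v)`, then `f^(k-2) v`, and so on; the
procedure stops with a member of `C`, which is `F`.
-/

namespace Pool.Agent.Results.MP_acd7a5_co.AverageRare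

open Finset

variable {V : Type*} [Fintype V] [DecidableEq V]

/-- The family `C(R)` generated by the family `R` of rooted sets `p = (stem, root)`: all `F ⊆ V`
such that the root is in `F` whenever the stem is contained in `F`. -/
def generated (R : Finset (Finset V × V)) : Finset (Finset V) :=
  univ.filter (fun F => ∀ p ∈ R, p.1 ⊆ F → p.2 ∈ F)

/-- `C` is average-rare: `2 ∑ |F| ≤ |C| |V|`. -/
def AvgRare (C : Finset (Finset V)) : Prop := 2 * ∑ F ∈ C, F.card ≤ C.card * Fintype.card V

/-- A more general form: it suffices that all stems with the same root `r` have a common element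
`f r`; the members may be required to satisfy an additional down-closed condition `Q`. -/
theorem general (R : Finset (Finset V × V)) (f : V → V) (hf : ∀ p ∈ R, f p.2 ∈ p.1)
    (Q : Finset V → Prop) (hQ : ∀ F G : Finset V, F ⊆ G → Q G → Q F) (C : Finset (Finset V))
    (hC : ∀ F, F ∈ C ↔ Q F ∧ F ∈ generated R) : AvgRare C :=
  Pool.Agent.R102.Rooted.average (R := R) (f := f) (Q := Q)
    ⟨fun F => by rw [hC F, generated, mem_filter]; simp, hQ, hf⟩

/-- Let `R` be a family of rooted sets on `V` (the root is not in the stem) in which each element of
`V` is the root of at most one member, and such that the empty set belongs to the family generated by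
`R`. Then the generated family is average-rare. -/
theorem result (R : Finset (Finset V × V)) (_hroot : ∀ p ∈ R, p.2 ∉ p.1)
    (hone : ∀ p ∈ R, ∀ q ∈ R, p.2 = q.2 → p = q) (hempty : ∅ ∈ generated R) :
    AvgRare (generated R) := by
  have hne : ∀ p ∈ R, p.1.Nonempty := by
    intro p hp
    rw [generated, mem_filter] at hempty
    by_contra h
    rw [not_nonempty_iff_eq_empty] at h
    exact absurd (hempty.2 p hp (by rw [h])) (notMem_empty _)
  have hex : ∀ r : V, ∃ s : V, ∀ p ∈ R, p.2 = r → s ∈ p.1 := by
    intro r
    by_cases h : ∃ p ∈ R, p.2 = r
    · obtain ⟨p, hp, hpr⟩ := h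
      obtain ⟨s, hs⟩ := hne p hp
      refine ⟨s, fun q hq hqr => ?_⟩
      rw [hone q hq p hp (hqr.trans hpr.symm)]
      exact hs
    · exact ⟨r, fun q hq hqr => absurd ⟨q, hq, hqr⟩ h⟩
  choose f hf' using hex
  have hf : ∀ p ∈ R, f p.2 ∈ p.1 := fun p hp => hf' p.2 p hp rfl
  exact general R f hf (fun _ => True) (fun _ _ _ _ => trivial) _ (fun F => by simp)

end Pool.Agent.Results.MP_acd7a5_co.AverageRare
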